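import Pool.Agent.Helper59.AN.Goals2
import Pool.Agent.Helper8.NU.PAR
import Pool.Agent.Helper60.NU.EX1
import Pool.Agent.Helper46.FL.Lib

/-! # MP_4137ca_lc: packet COV -/

noncomputable section

namespace AN.PkCOV

open Pool.Agent.Helper97.Ku NU Cardinal

variable {L : Type} [CompleteBooleanAlgebra L]

/-- One step of the recursion. -/
theorem step (K : Type) (U : BSet L) (b : L)
    (H : ∀ b' : L, b' ≤ b → b' ≠ ⊥ → ∀ (ι : Type) (u : ι → BSet L), #ι < #K →
      ¬ ∀ x : BSet L, b' ⊓ x.mem U ≤ ⨆ j, x.eq (u j))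
    (ι : Type) (hι : #ι < #K) (u : ι → BSet L) :
    ∃ z : BSet L, b ≤ z.mem U ∧ ∀ j, b ≤ (z.eq (u j))ᶜ := by
  let φ : BSet L → L := fun x => x.mem U ⊓ ⨅ j, (x.eq (u j))ᶜ
  have hφ : BSet.Ext φ := BSet.Ext.inf (BSet.Ext.mem_left U)
    (BSet.Ext.iInf fun j => BSet.Ext.compl (BSet.Ext.eq_left (u j)))
  obtain ⟨z, _, hz⟩ := (Pool.Agent.Helper46.FL.full L φ (fun _ => ⊤) hφ (BSet.Ext.const ⊤)
    ⟨U, rfl⟩).1
  have h1 : b ⊓ (⨆ y, φ y)ᶜ = ⊥ := by
    by_contra hb
    refine H _ inf_le_left hb ι u hι fun x => ?_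
    have h2 : (⨆ y, φ y)ᶜ ≤ (φ x)ᶜ := compl_le_compl (le_iSup φ x)
    have h3 : (φ x)ᶜ ⊓ x.mem U ≤ ⨆ j, x.eq (u j) := by
      have : (φ x)ᶜ = (x.mem U)ᶜ ⊔ ⨆ j, x.eq (u j) := by
        change (x.mem U ⊓ ⨅ j, (x.eq (u j))ᶜ)ᶜ = _
        rw [compl_inf, compl_iInf]
        simp only [compl_compl]
      rw [this, inf_sup_right, compl_inf_self, bot_sup_eq]
      exact inf_le_left
    exact le_trans (inf_le_inf_right _ (le_trans inf_le_right h2)) h3
  have h4 : b ≤ φ z := by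
    rw [hz]
    simp only [top_inf_eq]
    exact disjoint_compl_right_iff.1 (disjoint_iff.2 h1)
  exact ⟨z, le_trans h4 inf_le_left, fun j => le_trans h4 (le_trans inf_le_right (iInf_le _ j))⟩

theorem exu (K : Type) (U : BSet L) (b : L)
    (H : ∀ b' : L, b' ≤ b → b' ≠ ⊥ → ∀ (ι : Type) (u : ι → BSet L), #ι < #K →
      ¬ ∀ x : BSet L, b' ⊓ x.mem U ≤ ⨆ j, x.eq (u j)) :
    ∃ u : (#K).ord.ToType → BSet L, (∀ i, b ≤ (u i).mem U) ∧
      ∀ i j, j < i → b ≤ ((u i).eq (u j))ᶜ := by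
  have key := fun (i : (#K).ord.ToType) (v : ∀ j, j < i → BSet L) =>
    step K U b H (Set.Iio i) (mk_Iio_toType_ord_lt i) (fun j => v j.1 j.2)
  choose g hg1 hg2 using key
  let u : (#K).ord.ToType → BSet L := WellFounded.fix (wellFounded_lt) g
  have hu : ∀ i, u i = g i (fun j _ => u j) := fun i => WellFounded.fix_eq _ _ _
  refine ⟨u, fun i => ?_, fun i j hji => ?_⟩
  · rw [hu i]; exact hg1 i _
  · have := hg2 i (fun j _ => u j) ⟨j, hji⟩
    rw [← hu i] at this
    exact this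

variable {W : Type} [LinearOrder W] [WellFoundedLT W] (u : W → BSet L) (k : (ℕ → L) → W)

/-- The truth value of: `rN a` is different from all earlier names. -/
def dd (a : ℕ → L) : L := ⨅ a' : {a' // k a' < k a}, ((rN a).eq (rN a'.1))ᶜ

def ff : BSet L := BSet.mk (ℕ → L) (fun a => kpr (rN a) (u (k a))) (dd k)

def ee (a : ℕ → L) (x : BSet L) : L := dd k a ⊓ x.eq (rN a)

theorem ap_ff (x c : BSet L) : apV (ff u k) x c = ⨆ a, (ee k a x ⊓ c.eq (u (k a))) := by
  rw [(NU.PkPAR.par L).2.2, ff, BSet.mem_mk]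
  refine iSup_congr fun a => ?_
  rw [(NU.PkPAR.par L).2.1, ee, inf_assoc]

theorem eq_eq (x y z : BSet L) : x.eq y ⊓ x.eq z ≤ y.eq z := by
  rw [BSet.eq_comm' x y]
  exact BSet.eq_trans y x z

theorem disj0 (x : BSet L) (a a' : ℕ → L) (h : k a' < k a) : ee k a x ⊓ ee k a' x = ⊥ := by
  rw [eq_bot_iff]
  have h1 : ee k a x ⊓ ee k a' x ≤ (rN a).eq (rN a') :=
    le_trans (inf_le_inf inf_le_right inf_le_right) (eq_eq x _ _)
  have h2 : ee k a x ⊓ ee k a' x ≤ ((rN a).eq (rN a'))ᶜ :=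
    le_trans inf_le_left (le_trans inf_le_left (iInf_le _ (⟨a', h⟩ : {a' // k a' < k a})))
  exact le_trans (le_inf h1 h2) (le_of_eq (inf_compl_self _))

theorem disj (hk : Function.Injective k) (x : BSet L) (a a' : ℕ → L) (h : a ≠ a') :
    ee k a x ⊓ ee k a' x = ⊥ := by
  rcases lt_trichotomy (k a) (k a') with h1 | h1 | h1
  · rw [inf_comm]; exact disj0 k x a' a h1
  · exact absurd (hk h1) h
  · exact disj0 k x a a' h1

theorem cover (x : BSet L) (a : ℕ → L) : x.eq (rN a) ≤ ⨆ a', ee k a' x := by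
  have hw : WellFounded (fun a a' : ℕ → L => k a < k a') := InvImage.wf k wellFounded_lt
  induction a using hw.induction with
  | _ a ih =>
    have h1 : x.eq (rN a) = (x.eq (rN a) ⊓ dd k a) ⊔ (x.eq (rN a) ⊓ (dd k a)ᶜ) := by
      rw [← inf_sup_left, sup_compl_eq_top, inf_top_eq]
    rw [h1]
    refine sup_le ?_ ?_
    · rw [inf_comm]
      exact le_iSup (fun a' => ee k a' x) a
    · rw [dd, compl_iInf, inf_iSup_eq]
      refine iSup_le fun a' => ?_
      rw [compl_compl]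
      exact le_trans (BSet.eq_trans _ _ _) (ih a'.1 a'.2)

theorem inj_ff (hk : Function.Injective k) (hRN : G_RN) (U : BSet L) (b : L)
    (h1 : ∀ i, b ≤ (u i).mem U) (h2 : ∀ i j, j < i → b ≤ ((u i).eq (u j))ᶜ) :
    b ≤ injV (fun x => subV x omN) (fun u => u.mem U) := by
  refine le_trans ?_ (le_iSup _ (ff u k))
  refine le_inf ?_ ?_
  · refine le_iInf fun x => ?_
    rw [le_himp_iff]
    have hc : subV x omN ≤ ⨆ a, ee k a x :=
      le_trans ((hRN L).2.2.2.1 x) (cover k x _)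
    refine le_trans (inf_le_inf_left b hc) ?_
    rw [inf_iSup_eq]
    refine iSup_le fun a => ?_
    refine le_trans ?_ (le_iSup _ (u (k a)))
    refine le_inf (le_trans inf_le_left (h1 _)) (le_iInf fun c => le_inf ?_ ?_)
    · rw [le_himp_iff, ap_ff, inf_iSup_eq]
      refine iSup_le fun a' => ?_
      by_cases h : a = a'
      · subst h
        exact le_trans inf_le_right inf_le_right
      · refine le_trans ?_ bot_le
        rw [← disj k hk x a a' h]
        exact le_inf (le_trans inf_le_left inf_le_right) (le_trans inf_le_right inf_le_left)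
    · rw [le_himp_iff, ap_ff]
      refine le_trans ?_ (le_iSup _ a)
      exact inf_le_inf_right _ inf_le_right
  · refine le_iInf fun x => le_iInf fun x' => le_iInf fun c => ?_
    rw [le_himp_iff]
    refine le_trans (inf_le_inf_left b (le_trans inf_le_right inf_le_right)) ?_
    rw [ap_ff, ap_ff, iSup_inf_eq, inf_iSup_eq]
    refine iSup_le fun a => ?_
    rw [inf_iSup_eq, inf_iSup_eq]
    refine iSup_le fun a' => ?_
    have hxc : b ⊓ (ee k a x ⊓ c.eq (u (k a)) ⊓ (ee k a' x' ⊓ c.eq (u (k a')))) ≤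
        (u (k a)).eq (u (k a')) :=
      le_trans inf_le_right (le_trans (inf_le_inf inf_le_right inf_le_right) (eq_eq c _ _))
    rcases lt_trichotomy (k a) (k a') with h | h | h
    · have hb := h2 _ _ h
      rw [BSet.eq_comm'] at hb
      refine le_trans (le_inf hxc (le_trans inf_le_left hb)) ?_
      rw [inf_compl_self]
      exact bot_le
    · obtain rfl := hk h
      refine le_trans inf_le_right (le_trans (inf_le_inf (le_trans inf_le_left inf_le_right)
        (le_trans inf_le_left inf_le_right)) ?_)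
      rw [BSet.eq_comm' x' (rN a)]
      exact BSet.eq_trans _ _ _
    · have hb := h2 _ _ h
      refine le_trans (le_inf hxc (le_trans inf_le_left hb)) ?_
      rw [inf_compl_self]
      exact bot_le

theorem cov : G_RN → G_COV := by
  intro hRN L _ K hK U b hb hinj
  by_contra hcon
  push Not at hcon
  have H : ∀ b' : L, b' ≤ b → b' ≠ ⊥ → ∀ (ι : Type) (u : ι → BSet L), #ι < #K →
      ¬ ∀ x : BSet L, b' ⊓ x.mem U ≤ ⨆ j, x.eq (u j) := by
    intro b' h1 h2 ι u h3 h4
    obtain ⟨x, hx⟩ := hcon b' h1 h2 ι u h3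
    exact hx (h4 x)
  obtain ⟨u, hu1, hu2⟩ := exu K U b H
  have hK' : #(ℕ → L) ≤ #((#K).ord.ToType) := by rw [mk_ord_toType]; exact hK
  obtain ⟨k⟩ := (Cardinal.le_def _ _).1 hK'
  have h := inj_ff u k k.injective hRN U b hu1 hu2
  apply hb
  rw [eq_bot_iff]
  refine le_trans (le_inf h hinj) ?_
  rw [inf_compl_self]

end AN.PkCOV
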